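import Pool.Agent.W626.FR.Stms

/-!
# Competing thresholds (subtask FR-COMP)
-/

set_option autoImplicit false

namespace Pool.Agent.W351.FR

open MeasureTheory ProbabilityTheory Filter FrogGW FrogRec
open scoped ENNReal NNReal Classical Topology

variable {ι : Type} [Fintype ι]

/-- Fubini for one coordinate -/
theorem split (μ : Measure ℝ) [IsProbabilityMeasure μ] (i : ι)
    (F : ℝ → ({j : ι // ¬ j = i} → ℝ) → ℝ≥0∞) (hF : Measurable (Function.uncurry F)) :
    ∫⁻ x, F (x i) (fun j => x j) ∂(Measure.pi fun _ : ι => μ) =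
      ∫⁻ t, ∫⁻ y, F t y ∂(Measure.pi fun _ : {j : ι // ¬ j = i} => μ) ∂μ := by
  have h1 := measurePreserving_piEquivPiSubtypeProd (fun _ : ι => μ) (fun j => j = i)
  have hm : Measurable (fun p : ({j : ι // j = i} → ℝ) × ({j : ι // ¬ j = i} → ℝ) =>
      F (p.1 ⟨i, rfl⟩) p.2) := by
    have hg : Measurable (fun p : ({j : ι // j = i} → ℝ) × ({j : ι // ¬ j = i} → ℝ) =>
        (p.1 ⟨i, rfl⟩, p.2)) :=
      ((measurable_pi_apply _).comp measurable_fst).prodMk measurable_snd
    exact hF.comp hg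
  have h3 : ∫⁻ x, F (x i) (fun j => x j) ∂(Measure.pi fun _ : ι => μ) = _ :=
    h1.lintegral_comp hm
  rw [h3, lintegral_prod _ hm.aemeasurable]
  have key : ∀ inst : Fintype {j : ι // j = i},
      ∫⁻ a : {j : ι // j = i} → ℝ, ∫⁻ y, F (a ⟨i, rfl⟩) y
        ∂(Measure.pi fun _ : {j : ι // ¬ j = i} => μ)
        ∂(@Measure.pi {j : ι // j = i} (fun _ => ℝ) inst _ fun _ => μ) =
      ∫⁻ t, ∫⁻ y, F t y ∂(Measure.pi fun _ : {j : ι // ¬ j = i} => μ) ∂μ := fun inst =>
    (@measurePreserving_eval {j : ι // j = i} (fun _ => ℝ) inst _ (fun _ => μ) _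
      ⟨i, rfl⟩).lintegral_comp
      (f := fun t => ∫⁻ y, F t y ∂(Measure.pi fun _ : {j : ι // ¬ j = i} => μ))
      hF.lintegral_prod_right'
  exact key _

/-- the exponential of minus the threshold -/
noncomputable def v (β s : ℝ) : ℝ := (max (1 - s) 0) ^ (1 / β)

theorem v_cont {β : ℝ} (hβ : 0 < β) : Continuous (v β) := by
  unfold v
  exact (Real.continuous_rpow_const (by positivity)).comp (by fun_prop)

theorem v_eq {β s : ℝ} (hs : s < 1) : v β s = (1 - s) ^ (1 / β) := by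
  unfold v
  rw [max_eq_left (by linarith)]

theorem v_pos {β s : ℝ} (hs : s < 1) : 0 < v β s := by
  rw [v_eq hs]
  exact Real.rpow_pos_of_pos (by linarith) _

theorem v_le {β s : ℝ} (hβ : 0 < β) (h0 : 0 ≤ s) (hs : s < 1) : v β s ≤ 1 := by
  rw [v_eq hs]
  exact Real.rpow_le_one (by linarith) (by linarith) (by positivity)

theorem v_pow {β s : ℝ} (hβ : 0 < β) (hs : s < 1) : (v β s) ^ β = 1 - s := by
  rw [v_eq hs, ← Real.rpow_mul (by linarith), one_div_mul_cancel hβ.ne', Real.rpow_one]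

/-- measure of the set of smaller values -/
theorem meas_A {β w : ℝ} (hβ : 0 < β) (hw0 : 0 < w) (hw1 : w ≤ 1) (P : Prop) :
    unif {s | v β s < w ∨ (v β s = w ∧ P)} = ENNReal.ofReal (w ^ β) := by
  have hwb : 0 < w ^ β := Real.rpow_pos_of_pos hw0 _
  have hwb1 : w ^ β ≤ 1 := Real.rpow_le_one hw0.le hw1 hβ.le
  have hms : MeasurableSet {s | v β s < w ∨ (v β s = w ∧ P)} := by
    have h1 : MeasurableSet {s | v β s < w} :=
      measurableSet_lt (v_cont hβ).measurable measurable_const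
    have h2 : MeasurableSet {s | v β s = w} :=
      measurableSet_eq_fun (v_cont hβ).measurable measurable_const
    exact h1.union (h2.inter (MeasurableSet.const P))
  unfold unif
  rw [Measure.restrict_apply hms]
  apply le_antisymm
  · have hsub : {s | v β s < w ∨ (v β s = w ∧ P)} ∩ Set.Ico 0 1 ⊆ Set.Ico (1 - w ^ β) 1 := by
      rintro s ⟨hs1, hs2⟩
      refine ⟨?_, hs2.2⟩
      have h1 : v β s ≤ w := by
        rcases hs1 with h | h
        · exact h.le
        · exact h.1.le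
      have h2 : (v β s) ^ β ≤ w ^ β := Real.rpow_le_rpow (v_pos hs2.2).le h1 hβ.le
      rw [v_pow hβ hs2.2] at h2
      linarith
    refine (measure_mono hsub).trans ?_
    rw [Real.volume_Ico]
    apply ENNReal.ofReal_le_ofReal
    linarith
  · have hsub : Set.Ioo (1 - w ^ β) 1 ⊆ {s | v β s < w ∨ (v β s = w ∧ P)} ∩ Set.Ico 0 1 := by
      rintro s ⟨hs1, hs2⟩
      refine ⟨Or.inl ?_, by linarith, hs2⟩
      have h1 : (1 - s) ^ (1 / β) < (w ^ β) ^ (1 / β) :=
        Real.rpow_lt_rpow (by linarith) (by linarith) (by positivity)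
      rw [← Real.rpow_mul hw0.le, mul_one_div_cancel hβ.ne', Real.rpow_one] at h1
      rw [v_eq hs2]
      exact h1
    refine le_trans ?_ (measure_mono hsub)
    rw [Real.volume_Ioo]
    apply ENNReal.ofReal_le_ofReal
    linarith

/-- change of variables -/
theorem cov {c : ℝ} (hc : 0 < c) (f : ℝ → ℝ≥0∞) :
    ∫⁻ t, f (1 - (1 - t) ^ c) * ENNReal.ofReal ((1 - t) ^ (c - 1)) ∂unif =
      ENNReal.ofReal c⁻¹ * ∫⁻ y, f y ∂unif := by
  have himg : (fun t : ℝ => 1 - (1 - t) ^ c) '' Set.Ico 0 1 = Set.Ico 0 1 := by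
    ext y
    constructor
    · rintro ⟨t, ⟨ht0, ht1⟩, rfl⟩
      have h1 : 0 < (1 - t) ^ c := Real.rpow_pos_of_pos (by linarith) _
      have h2 : (1 - t) ^ c ≤ 1 := Real.rpow_le_one (by linarith) (by linarith) hc.le
      exact ⟨by show (0 : ℝ) ≤ 1 - (1 - t) ^ c; linarith, by
        show 1 - (1 - t) ^ c < 1; linarith⟩
    · rintro ⟨hy0, hy1⟩
      have h1 : 0 < (1 - y) ^ (1 / c) := Real.rpow_pos_of_pos (by linarith) _
      have h2 : (1 - y) ^ (1 / c) ≤ 1 := Real.rpow_le_one (by linarith) (by linarith)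
        (by positivity)
      refine ⟨1 - (1 - y) ^ (1 / c), ⟨by linarith, by linarith⟩, ?_⟩
      show 1 - (1 - (1 - (1 - y) ^ (1 / c))) ^ c = y
      rw [sub_sub_cancel, ← Real.rpow_mul (by linarith), one_div_mul_cancel hc.ne',
        Real.rpow_one]
      ring
  have hder : ∀ t ∈ Set.Ico (0 : ℝ) 1, HasDerivWithinAt (fun t : ℝ => 1 - (1 - t) ^ c)
      (c * (1 - t) ^ (c - 1)) (Set.Ico 0 1) t := by
    intro t ht
    have h1 : HasDerivAt (fun t : ℝ => 1 - t) (-1) t := by
      simpa using (hasDerivAt_id t).const_sub 1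
    have ht1 : (1 : ℝ) - t ≠ 0 := by
      have := ht.2
      intro h
      linarith
    have h2 := h1.rpow_const (p := c) (Or.inl ht1)
    have h3 := (h2.const_sub 1).hasDerivWithinAt (s := Set.Ico 0 1)
    have e : c * (1 - t) ^ (c - 1) = -(-1 * c * (1 - t) ^ (c - 1)) := by ring
    rw [e]
    exact h3
  have hinj : Set.InjOn (fun t : ℝ => 1 - (1 - t) ^ c) (Set.Ico 0 1) := by
    intro x hx y hy h
    have h1 : (1 - x) ^ c = (1 - y) ^ c := by
      have : 1 - (1 - x) ^ c = 1 - (1 - y) ^ c := h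
      linarith
    have hx0 : (0 : ℝ) ≤ 1 - x := by linarith [hx.2]
    have hy0 : (0 : ℝ) ≤ 1 - y := by linarith [hy.2]
    have h2 : 1 - x = 1 - y := Real.rpow_left_injOn hc.ne' hx0 hy0 h1
    linarith
  have h := lintegral_image_eq_lintegral_abs_deriv_mul measurableSet_Ico hder hinj f
  rw [himg] at h
  unfold unif
  rw [h, ← lintegral_const_mul' _ _ ENNReal.ofReal_ne_top]
  refine setLIntegral_congr_fun measurableSet_Ico fun t ht => ?_
  show f (1 - (1 - t) ^ c) * ENNReal.ofReal ((1 - t) ^ (c - 1)) =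
    ENNReal.ofReal c⁻¹ * (ENNReal.ofReal |c * (1 - t) ^ (c - 1)| * f (1 - (1 - t) ^ c))
  have h1 : 0 ≤ (1 - t) ^ (c - 1) := Real.rpow_nonneg (by linarith [ht.2]) _
  rw [abs_of_nonneg (by positivity), ← mul_assoc, ← ENNReal.ofReal_mul (by positivity),
    ← mul_assoc, inv_mul_cancel₀ hc.ne', one_mul, mul_comm]

/-- the coordinate `i` is selected -/
def Sl (b : ι → ℝ≥0) (rk : ι → ℕ) (x : ι → ℝ) (i : ι) : Prop :=
  ∀ j : {j : ι // ¬ j = i}, v (b j) (x j) < v (b i) (x i) ∨
    (v (b j) (x j) = v (b i) (x i) ∧ rk i ≤ rk j)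

theorem Sl_ex [Nonempty ι] (b : ι → ℝ≥0) (rk : ι → ℕ) (x : ι → ℝ) : ∃ i, Sl b rk x i := by
  obtain ⟨i0, _, hi0⟩ := Finset.exists_max_image Finset.univ (fun i => v (b i) (x i))
    Finset.univ_nonempty
  have hne : (Finset.univ.filter fun i => v (b i) (x i) = v (b i0) (x i0)).Nonempty :=
    ⟨i0, by simp⟩
  obtain ⟨i, hi, hmin⟩ := Finset.exists_min_image _ rk hne
  rw [Finset.mem_filter] at hi
  refine ⟨i, fun j => ?_⟩
  rcases (hi0 j (Finset.mem_univ _)).lt_or_eq with h | h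
  · left; rw [hi.2]; exact h
  · right
    exact ⟨by rw [hi.2]; exact h, hmin j (by simp [h])⟩

omit [Fintype ι] in
theorem Sl_uniq (b : ι → ℝ≥0) (rk : ι → ℕ) (hrk : Function.Injective rk) (x : ι → ℝ)
    {i i' : ι} (h : Sl b rk x i) (h' : Sl b rk x i') : i = i' := by
  by_contra hne
  rcases h ⟨i', fun e => hne e.symm⟩ with h1 | ⟨h1, h2⟩
  · rcases h' ⟨i, hne⟩ with h3 | ⟨h3, _⟩
    · exact lt_asymm h1 h3
    · exact h1.ne h3.symm
  · rcases h' ⟨i, hne⟩ with h3 | ⟨_, h4⟩
    · exact h3.ne h1.symm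
    · exact hne (hrk (le_antisymm h2 h4))

/-- the integrand for one coordinate -/
noncomputable def FF' (b : ι → ℝ≥0) (rk : ι → ℕ) (B : ℝ) (g : ℝ → ℝ≥0∞) (i : ι) (t : ℝ)
    (y : {j : ι // ¬ j = i} → ℝ) : ℝ≥0∞ :=
  (Set.pi Set.univ (fun j : {j : ι // ¬ j = i} =>
    {s | v (b j) s < v (b i) t ∨ (v (b j) s = v (b i) t ∧ rk i ≤ rk j)})).indicator
    (fun _ => g (1 - (v (b i) t) ^ B)) y

theorem FF'_meas (b : ι → ℝ≥0) (hb : ∀ i, 0 < b i) (rk : ι → ℕ) (B : ℝ) (hB : 0 ≤ B)
    (g : ℝ → ℝ≥0∞) (hg : Measurable g) (i : ι) :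
    Measurable (Function.uncurry (FF' b rk B g i)) := by
  have hv : ∀ j, Measurable (v (b j)) := fun j => (v_cont (by exact_mod_cast hb j)).measurable
  have hS : MeasurableSet {p : ℝ × ({j : ι // ¬ j = i} → ℝ) | ∀ j : {j : ι // ¬ j = i},
      v (b j) (p.2 j) < v (b i) p.1 ∨ (v (b j) (p.2 j) = v (b i) p.1 ∧ rk i ≤ rk j)} := by
    have : {p : ℝ × ({j : ι // ¬ j = i} → ℝ) | ∀ j : {j : ι // ¬ j = i},
      v (b j) (p.2 j) < v (b i) p.1 ∨ (v (b j) (p.2 j) = v (b i) p.1 ∧ rk i ≤ rk j)} =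
      ⋂ j : {j : ι // ¬ j = i}, {p | v (b j) (p.2 j) < v (b i) p.1 ∨
        (v (b j) (p.2 j) = v (b i) p.1 ∧ rk i ≤ rk j)} := by
      ext p; simp
    rw [this]
    refine MeasurableSet.iInter fun j => ?_
    have m1 : Measurable fun p : ℝ × ({j : ι // ¬ j = i} → ℝ) => v (b j) (p.2 j) :=
      (hv j).comp ((measurable_pi_apply j).comp measurable_snd)
    have m2 : Measurable fun p : ℝ × ({j : ι // ¬ j = i} → ℝ) => v (b i) p.1 :=
      (hv i).comp measurable_fst
    exact (measurableSet_lt m1 m2).union ((measurableSet_eq_fun m1 m2).inter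
      (MeasurableSet.const _))
  have h2 : Measurable fun p : ℝ × ({j : ι // ¬ j = i} → ℝ) => g (1 - (v (b i) p.1) ^ B) := by
    refine hg.comp ?_
    exact measurable_const.sub (((Real.continuous_rpow_const hB).measurable.comp (hv i)).comp
      measurable_fst)
  have h3 := h2.indicator hS
  convert h3 using 1
  ext ⟨t, y⟩
  unfold Function.uncurry FF' Set.indicator
  simp

theorem one (b : ι → ℝ≥0) (hb : ∀ i, 0 < b i) (rk : ι → ℕ) (g : ℝ → ℝ≥0∞) (hg : Measurable g)
    (i : ι) :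
    ∫⁻ x : ι → ℝ, (if Sl b rk x i then
      g (1 - (v (b i) (x i)) ^ (((∑ j, b j : ℝ≥0) : ℝ))) else 0) ∂(Measure.pi fun _ : ι => unif) =
      ((b i / ∑ j, b j : ℝ≥0) : ℝ≥0∞) * ∫⁻ y, g y ∂unif := by
  set B : ℝ := ((∑ j, b j : ℝ≥0) : ℝ) with hB
  have hbi : (0 : ℝ) < b i := by exact_mod_cast hb i
  have hBi : (b i : ℝ) ≤ B := by
    rw [hB]
    exact_mod_cast Finset.single_le_sum (f := b) (fun j _ => zero_le) (Finset.mem_univ i)
  have hB0 : 0 < B := lt_of_lt_of_le hbi hBi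
  have hc : 0 < B / b i := by positivity
  have e1 : ∀ x : ι → ℝ, (if Sl b rk x i then g (1 - (v (b i) (x i)) ^ B) else 0) =
      FF' b rk B g i (x i) (fun j => x j) := by
    intro x
    unfold FF' Set.indicator Sl
    simp
  rw [lintegral_congr e1, split unif i (FF' b rk B g i) (FF'_meas b hb rk B hB0.le g hg i)]
  have e2 : ∀ t ∈ Set.Ico (0 : ℝ) 1, ∫⁻ y, FF' b rk B g i t y ∂(Measure.pi
      fun _ : {j : ι // ¬ j = i} => unif) =
      g (1 - (1 - t) ^ (B / b i)) * ENNReal.ofReal ((1 - t) ^ (B / b i - 1)) := by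
    intro t ht
    have hw0 : 0 < v (b i) t := v_pos ht.2
    have hw1 : v (b i) t ≤ 1 := v_le hbi ht.1 ht.2
    have hms : MeasurableSet (Set.pi Set.univ (fun j : {j : ι // ¬ j = i} =>
        {s | v (b j) s < v (b i) t ∨ (v (b j) s = v (b i) t ∧ rk i ≤ rk j)})) := by
      refine MeasurableSet.univ_pi fun j => ?_
      have hv : Measurable (v (b j)) := (v_cont (by exact_mod_cast hb j)).measurable
      exact (measurableSet_lt hv measurable_const).union
        ((measurableSet_eq_fun hv measurable_const).inter (MeasurableSet.const _))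
    unfold FF'
    rw [lintegral_indicator_const hms, Measure.pi_pi]
    have e3 : ∀ j : {j : ι // ¬ j = i}, unif {s | v (b j) s < v (b i) t ∨
        (v (b j) s = v (b i) t ∧ rk i ≤ rk j)} = ENNReal.ofReal ((v (b i) t) ^ (b j : ℝ)) :=
      fun j => meas_A (by exact_mod_cast hb j) hw0 hw1 _
    rw [Finset.prod_congr rfl fun j _ => e3 j, ← ENNReal.ofReal_prod_of_nonneg
      (fun j _ => Real.rpow_nonneg hw0.le _), ← Real.rpow_sum_of_pos hw0]
    have e4 : ∑ j : {j : ι // ¬ j = i}, (b j : ℝ) = B - b i := by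
      have h1 : ∑ j : {j : ι // ¬ j = i}, (b j : ℝ) = ∑ j ∈ Finset.univ.filter (fun j => ¬ j = i),
          (b j : ℝ) := by
        rw [Finset.sum_subtype (Finset.univ.filter (fun j => ¬ j = i)) (p := fun j => ¬ j = i)
          (by simp)]
      rw [h1, Finset.filter_not, Finset.filter_eq' Finset.univ i, if_pos (Finset.mem_univ i),
        Finset.sum_sdiff_eq_sub (Finset.subset_univ _), Finset.sum_singleton, hB]
      push_cast
      rfl
    rw [e4, v_eq ht.2, ← Real.rpow_mul (by linarith [ht.2]), ← Real.rpow_mul (by linarith [ht.2])]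
    congr 4
    · ring
    · field_simp
  have e5 : ∫⁻ t, ∫⁻ y, FF' b rk B g i t y ∂(Measure.pi fun _ : {j : ι // ¬ j = i} => unif)
      ∂unif = ∫⁻ t, g (1 - (1 - t) ^ (B / b i)) * ENNReal.ofReal ((1 - t) ^ (B / b i - 1))
      ∂unif := by
    unfold unif
    exact setLIntegral_congr_fun measurableSet_Ico e2
  rw [e5, cov hc]
  congr 1
  rw [← ENNReal.ofReal_coe_nnreal]
  congr 1
  rw [NNReal.coe_div, ← hB, inv_div]

theorem comp2 : TaskComp2 := by
  intro ι _ _ _ b hb
  let rk : ι → ℕ := fun i => (Fintype.equivFin ι i : ℕ)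
  have hrk : Function.Injective rk := fun i j h =>
    (Fintype.equivFin ι).injective (Fin.ext h)
  have hex := Sl_ex b rk
  let I : (ι → ℝ) → ι := fun x => Classical.choose (hex x)
  have hI : ∀ x, Sl b rk x (I x) := fun x => Classical.choose_spec (hex x)
  set B : ℝ := ((∑ j, b j : ℝ≥0) : ℝ) with hB
  refine ⟨fun x => 1 - (v (b (I x)) (x (I x))) ^ B, I, ?_, ?_⟩
  · intro x hx t h
    have hbi : (0 : ℝ) < b (I x) := by exact_mod_cast hb (I x)
    have hBi : (b (I x) : ℝ) ≤ B := by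
      rw [hB]
      exact_mod_cast Finset.single_le_sum (f := b) (fun j _ => zero_le) (Finset.mem_univ (I x))
    have hB0 : 0 < B := lt_of_lt_of_le hbi hBi
    have hx1 := (hx (I x)).2
    have hv0 := v_pos (β := (b (I x) : ℝ)) hx1
    have h1 : Real.exp (-(B * t)) ≤ (v (b (I x)) (x (I x))) ^ B := by
      have : 1 - (v (b (I x)) (x (I x))) ^ B ≤ 1 - Real.exp (-(B * t)) := h
      linarith
    have h2 : Real.exp (-(t : ℝ)) ≤ v (b (I x)) (x (I x)) := by
      have h3 : (Real.exp (-(t : ℝ))) ^ B ≤ (v (b (I x)) (x (I x))) ^ B := by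
        rw [← Real.exp_mul]
        convert h1 using 2
        ring
      exact (Real.rpow_le_rpow_iff (Real.exp_pos _).le hv0.le hB0).1 h3
    have h4 : (Real.exp (-(t : ℝ))) ^ (b (I x) : ℝ) ≤ (v (b (I x)) (x (I x))) ^ (b (I x) : ℝ) :=
      Real.rpow_le_rpow (Real.exp_pos _).le h2 hbi.le
    rw [v_pow hbi hx1, ← Real.exp_mul] at h4
    have h5 : -(t : ℝ) * (b (I x) : ℝ) = -((b (I x) : ℝ) * t) := by ring
    rw [h5] at h4
    linarith
  · intro h hh
    have hsum : ∀ x : ι → ℝ, h (1 - (v (b (I x)) (x (I x))) ^ B) (I x) =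
        ∑ i, (if Sl b rk x i then h (1 - (v (b i) (x i)) ^ B) i else 0) := by
      intro x
      rw [Finset.sum_eq_single (I x)]
      · rw [if_pos (hI x)]
      · intro j _ hj
        rw [if_neg]
        intro hs
        exact hj (Sl_uniq b rk hrk x hs (hI x))
      · intro hc
        exact absurd (Finset.mem_univ _) hc
    have hB0 : 0 ≤ B := NNReal.coe_nonneg _
    have hmeas : ∀ i, Measurable fun x : ι → ℝ =>
        (if Sl b rk x i then h (1 - (v (b i) (x i)) ^ B) i else 0) := by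
      intro i
      have h1 := FF'_meas b hb rk B hB0 (fun y => h y i) (hh i) i
      have h2 : Measurable fun x : ι → ℝ => (x i, (fun j : {j : ι // ¬ j = i} => x j)) :=
        (measurable_pi_apply i).prodMk (measurable_pi_iff.2 fun j => measurable_pi_apply _)
      have h3 := h1.comp h2
      convert h3 using 1
      ext x
      simp only [Function.comp, Function.uncurry]
      unfold FF' Set.indicator Sl
      simp
    refine ⟨?_, ?_⟩
    · simp only [hsum]
      exact Finset.measurable_sum _ fun i _ => hmeas i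
    · rw [lintegral_congr hsum, lintegral_finsetSum _ fun i _ => hmeas i]
      exact Finset.sum_congr rfl fun i _ => one b hb rk (fun y => h y i) (hh i) i

end Pool.Agent.W351.FR
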